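import Pool.Agent.H73.CTG.Stmts

/-!
# Board CTG, row LVT: transformation of the Levi form
-/

set_option autoImplicit false

open Set Filter Topology

namespace Pool.CTG

theorem lvt_sec {n : ℕ} {G : E n → ℝ} (hG : ContDiffOn ℝ 2 G {z | z ≠ 0}) {z : E n}
    (hz : z ≠ 0) : HasFDerivAt (fderiv ℝ G) (fderiv ℝ (fderiv ℝ G) z) z := by
  have ho : IsOpen {z : E n | z ≠ 0} := isOpen_ne
  have h1 : ContDiffOn ℝ 1 (fderiv ℝ G) {z : E n | z ≠ 0} :=
    hG.fderiv_of_isOpen ho (by norm_num)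
  have h2 : DifferentiableAt ℝ (fderiv ℝ G) z :=
    (h1.differentiableOn (by norm_num)).differentiableAt (ho.mem_nhds hz)
  exact h2.hasFDerivAt

theorem lvt_app {n : ℕ} {G : E n → ℝ} (hG : ContDiffOn ℝ 2 G {z | z ≠ 0}) {z : E n}
    (hz : z ≠ 0) (v w : E n) :
    fderiv ℝ (fun y => fderiv ℝ G y v) z w = fderiv ℝ (fderiv ℝ G) z w v := by
  have h := (lvt_sec hG hz).clm_apply (hasFDerivAt_const v z)
  rw [h.fderiv]
  simp

theorem LVT_thm : LVTStmt := by
  intro n f d G hH z v hz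
  have ho : IsOpen {z : E n | z ≠ 0} := isOpen_ne
  have hfd : ∀ y, HasFDerivAt f ((fderiv ℂ f y).restrictScalars ℝ) y := fun y =>
    ((hH.cd.differentiable (by norm_num)) y).hasFDerivAt.restrictScalars ℝ
  have hGd : ∀ y : E n, y ≠ 0 → HasFDerivAt G (fderiv ℝ G y) y := fun y hy =>
    ((hH.g2.differentiableOn (by norm_num)).differentiableAt (ho.mem_nhds hy)).hasFDerivAt
  have e1 : ∀ (y w : E n), y ≠ 0 →
      fderiv ℝ G (f y) (fderiv ℂ f y w) = d * fderiv ℝ G y w := by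
    intro y w hy
    have h1 : HasFDerivAt (fun x => G (f x))
        ((fderiv ℝ G (f y)).comp ((fderiv ℂ f y).restrictScalars ℝ)) y :=
      (hGd (f y) (hH.nz y hy)).comp y (hfd y)
    have h2 : HasFDerivAt (fun x => (d : ℝ) * G x) ((d : ℝ) • fderiv ℝ G y) y :=
      (hGd y hy).const_mul _
    have h3 : (fun x => G (f x)) =ᶠ[𝓝 y] fun x => (d : ℝ) * G x := by
      filter_upwards [ho.mem_nhds hy] with x hx
      exact hH.ge x hx
    have h4 := (h1.congr_of_eventuallyEq h3.symm).unique h2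
    have h5 := congrArg (fun T : E n →L[ℝ] ℝ => T w) h4
    simpa using h5
  have hA : HasFDerivAt (fderiv ℂ f) (fderiv ℂ (fderiv ℂ f) z) z :=
    ((hH.cd.fderiv_right (m := 1) (by norm_num)).differentiable (by norm_num) z).hasFDerivAt
  set C := fderiv ℂ (fderiv ℂ f) z with hC
  have e2 : ∀ w u : E n, (d : ℝ) * fderiv ℝ (fderiv ℝ G) z w u =
      fderiv ℝ (fderiv ℝ G) (f z) (fderiv ℂ f z w) (fderiv ℂ f z u) +
        fderiv ℝ G (f z) (C w u) := by
    intro w u
    have h1 : HasFDerivAt (fun y => fderiv ℝ G (f y))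
        ((fderiv ℝ (fderiv ℝ G) (f z)).comp ((fderiv ℂ f z).restrictScalars ℝ)) z :=
      (lvt_sec hH.g2 (hH.nz z hz)).comp z (hfd z)
    have h2 := (hA.clm_apply (hasFDerivAt_const u z)).restrictScalars ℝ
    have h3 := h1.clm_apply h2
    have h4 := ((lvt_sec hH.g2 hz).clm_apply (hasFDerivAt_const u z)).const_mul (d : ℝ)
    have h5 : (fun y => (fderiv ℝ G (f y)) (fderiv ℂ f y u)) =ᶠ[𝓝 z]
        fun y => (d : ℝ) * fderiv ℝ G y u := by
      filter_upwards [ho.mem_nhds hz] with x hx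
      exact e1 x u hx
    have h6 := (h3.congr_of_eventuallyEq h5.symm).unique h4
    have h7 := congrArg (fun T : E n →L[ℝ] ℝ => T w) h6
    simp at h7
    linarith
  refine ⟨?_, e1 z v hz⟩
  have hI : fderiv ℂ f z (Complex.I • v) = Complex.I • fderiv ℂ f z v := map_smul _ _ _
  have hCI : C (Complex.I • v) (Complex.I • v) = -(C v v) := by
    have h1 : C (Complex.I • v) = Complex.I • C v := map_smul _ _ _
    rw [map_smul, h1]
    show Complex.I • (Complex.I • C v v) = -(C v v)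
    rw [smul_smul, Complex.I_mul_I, neg_one_smul]
  have h8 := e2 v v
  have h9 := e2 (Complex.I • v) (Complex.I • v)
  rw [hCI, hI, map_neg] at h9
  show fderiv ℝ (fun y => fderiv ℝ G y (fderiv ℂ f z v)) (f z) (fderiv ℂ f z v) +
    fderiv ℝ (fun y => fderiv ℝ G y (Complex.I • fderiv ℂ f z v)) (f z)
      (Complex.I • fderiv ℂ f z v) = d * (fderiv ℝ (fun y => fderiv ℝ G y v) z v +
    fderiv ℝ (fun y => fderiv ℝ G y (Complex.I • v)) z (Complex.I • v))
  rw [lvt_app hH.g2 (hH.nz z hz), lvt_app hH.g2 (hH.nz z hz), lvt_app hH.g2 hz,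
    lvt_app hH.g2 hz, mul_add, h8, h9]
  ring

end Pool.CTG
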